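import Pool.Agent.V308.KD.Main

/-!
# Congruent elliptic curves over function fields and their `L`-functions in extensions of prime power degree
-/

set_option autoImplicit false
set_option linter.all false
set_option maxHeartbeats 4000000

open Polynomial FF Module Pool.Agent.W343.BSD Pool.Agent.W313.Gr Pool.Agent.V308.KD

namespace Pool.Agent.V1143.KC

section one

variable {k K : Type} [Field k] [Finite k] [Field K] [Algebra k K] [FF.IsFF k K]

/-- the comparison of the `L`-functions of two curves with the same Euler factors modulo `l` off `B` -/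
theorem congr_identity {l : ℕ} [Fact l.Prime] {a b a' b' : K} (B : Finset (Place k K))
    (hB : ∀ v, v ∉ B → locML l v a b = locML l v a' b') {P P' : Polynomial ℤ}
    (hP : Lfun k a b = (P : PowerSeries ℤ)) (hP' : Lfun k a' b' = (P' : PowerSeries ℤ)) :
    P.map (Int.castRingHom (ZMod l)) * ∏ v ∈ B, locML l v a b =
      P'.map (Int.castRingHom (ZMod l)) * ∏ v ∈ B, locML l v a' b' := by
  classical
  have h1 := lfun_modL (k := k) l a b
  have h2 := lfun_modL (k := k) l a' b'
  rw [hP, redL_poly] at h1
  rw [hP', redL_poly] at h2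
  have h3 := fin_factor' (d := fun v : Place k K => v.deg) (fun n => places_fin n)
    (F := fun v => (locML l v a b : PowerSeries (ZMod l)))
    (W := fun v => (locML l v a' b' : PowerSeries (ZMod l)))
    (fun v => const_locML l v a b) (fun v => const_locML l v a' b') B
    (fun v hv => by rw [hB v hv])
  rw [← coe_prod', ← coe_prod'] at h3
  apply Polynomial.coe_injective
  rw [Polynomial.coe_mul, Polynomial.coe_mul]
  set E := eulerProd (fun v : Place k K => v.deg) fun v => (locML l v a b : PowerSeries (ZMod l))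
    with hEd
  set E' := eulerProd (fun v : Place k K => v.deg)
    fun v => (locML l v a' b' : PowerSeries (ZMod l)) with hEd'
  set p := ((P.map (Int.castRingHom (ZMod l)) : Polynomial (ZMod l)) : PowerSeries (ZMod l))
  set p' := ((P'.map (Int.castRingHom (ZMod l)) : Polynomial (ZMod l)) : PowerSeries (ZMod l))
  set x := ((∏ v ∈ B, locML l v a b : Polynomial (ZMod l)) : PowerSeries (ZMod l))
  set x' := ((∏ v ∈ B, locML l v a' b' : Polynomial (ZMod l)) : PowerSeries (ZMod l))
  calc p * x = p * x * (p' * E') := by rw [h2, mul_one]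
    _ = p * p' * (E' * x) := by ring
    _ = p * p' * (E * x') := by rw [h3]
    _ = (p * E) * (p' * x') := by ring
    _ = p' * x' := by rw [h1, one_mul]

theorem poly_ne {l : ℕ} [Fact l.Prime] {a b : K} {P : Polynomial ℤ}
    (hP : Lfun k a b = (P : PowerSeries ℤ)) : P.map (Int.castRingHom (ZMod l)) ≠ 0 := by
  intro h
  have h1 := lfun_modL (k := k) l a b
  rw [hP, redL_poly, h, Polynomial.coe_zero, zero_mul] at h1
  exact zero_ne_one h1

/-- the comparison of the multiplicities -/
theorem congr_mult {l : ℕ} [Fact l.Prime] {a b a' b' : K} (hE : 4 * a ^ 3 + 27 * b ^ 2 ≠ 0)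
    (hE' : 4 * a' ^ 3 + 27 * b' ^ 2 ≠ 0) (B : Finset (Place k K))
    (hB : ∀ v, v ∉ B → (S.locFactor v a b).map (Int.castRingHom (ZMod l)) =
      (S.locFactor v a' b').map (Int.castRingHom (ZMod l))) {P P' : Polynomial ℤ}
    (hP : S.Lfun k a b = (P : PowerSeries ℤ)) (hP' : S.Lfun k a' b' = (P' : PowerSeries ℤ)) :
    mult l (Nat.card k) P + ∑ v ∈ B, mult l (Nat.card k) (S.locFactor v a b) =
      mult l (Nat.card k) P' + ∑ v ∈ B, mult l (Nat.card k) (S.locFactor v a' b') := by
  classical
  rw [S.lfun_eq hE] at hP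
  rw [S.lfun_eq hE'] at hP'
  have hB' : ∀ v, v ∉ B → locML l v a b = locML l v a' b' := by
    intro v hv
    have h := hB v hv
    rw [S.locFactor_eq v hE, S.locFactor_eq v hE'] at h
    exact h
  have hid := congr_identity B hB' hP hP'
  have hmu := congrArg (Polynomial.rootMultiplicity ((Nat.card k : ℕ) : ZMod l)⁻¹) hid
  rw [rm_mul _ (poly_ne hP) (Finset.prod_ne_zero_iff.2 fun v _ => locML_ne l v a b),
    rm_mul _ (poly_ne hP') (Finset.prod_ne_zero_iff.2 fun v _ => locML_ne l v a' b'),
    rm_prod _ _ _ (fun v _ => locML_ne l v a b), rm_prod _ _ _ (fun v _ => locML_ne l v a' b')] at hmu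
  have hloc : ∀ v : Place k K, mult l (Nat.card k) (S.locFactor v a b) =
      (locML l v a b).rootMultiplicity ((Nat.card k : ℕ) : ZMod l)⁻¹ := by
    intro v
    unfold mult locML
    rw [S.locFactor_eq v hE]
  have hloc' : ∀ v : Place k K, mult l (Nat.card k) (S.locFactor v a' b') =
      (locML l v a' b').rootMultiplicity ((Nat.card k : ℕ) : ZMod l)⁻¹ := by
    intro v
    unfold mult locML
    rw [S.locFactor_eq v hE']
  rw [Finset.sum_congr rfl fun v _ => hloc v, Finset.sum_congr rfl fun v _ => hloc' v]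
  exact hmu

end one

/-- the ramification index is a divisor of the degree -/
theorem ram_pos {k K L : Type} [Field k] [Finite k] [Field K] [Algebra k K] [FF.IsFF k K] [Field L]
    [Algebra k L] [Algebra K L] [IsScalarTower k K L] [FiniteDimensional K L] [IsGalois K L]
    (v : Place k K) : 0 < finrank K L / ramIndex L v := by
  have i3 : FF.IsFF k L := isFF_of_finite (K := K)
  obtain ⟨St, e, f, D⟩ := exists_galoisFiber (L := L) v
  rw [ramIndex_eq D]
  have h1 := D.mul
  have h2 : 0 < finrank K L := finrank_pos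
  have h3 : e ∣ finrank K L := by
    rw [← h1]
    exact Dvd.intro_left (St.card * f) (by ring)
  obtain ⟨w, hw⟩ := D.nonempty
  exact Nat.div_pos (Nat.le_of_dvd h2 h3) ((D.isOver w hw).1)

/-- arithmetic: from the two formulas of Kida to the comparison over `L` -/
theorem combine {J : Type} [DecidableEq J] (n r m m' M M' : ℕ) (e : J → ℕ) (x x' : J → ℕ)
    (B : Finset J) (hfin : {v | e v ≠ 1}.Finite) (hx : ∀ v, v ∉ B → x v = x' v)
    (h0 : m + ∑ v ∈ B, x v = m' + ∑ v ∈ B, x' v)
    (h1 : r * M = n * m + ∑ᶠ v, (n - n / e v) * x v)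
    (h2 : r * M' = n * m' + ∑ᶠ v, (n - n / e v) * x' v) :
    r * M + ∑ v ∈ B, n / e v * x v = r * M' + ∑ v ∈ B, n / e v * x' v := by
  set R : Finset J := hfin.toFinset \ B with hR
  have hs : ∀ y : J → ℕ, ∑ᶠ v, (n - n / e v) * y v =
      ∑ v ∈ B, (n - n / e v) * y v + ∑ v ∈ R, (n - n / e v) * y v := by
    intro y
    rw [← Finset.sum_union (by rw [hR]; exact Finset.disjoint_sdiff)]
    rw [finsum_eq_sum_of_support_subset]
    intro v hv
    rw [Function.mem_support] at hv
    rw [Finset.mem_coe, Finset.mem_union]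
    by_cases hvB : v ∈ B
    · exact Or.inl hvB
    · right
      rw [hR, Finset.mem_sdiff, Set.Finite.mem_toFinset]
      refine ⟨fun h => hv ?_, hvB⟩
      rw [h, Nat.div_one, Nat.sub_self, zero_mul]
  have hadd : ∀ y : J → ℕ, ∑ v ∈ B, (n - n / e v) * y v + ∑ v ∈ B, n / e v * y v =
      n * ∑ v ∈ B, y v := by
    intro y
    rw [← Finset.sum_add_distrib, Finset.mul_sum]
    refine Finset.sum_congr rfl fun v _ => ?_
    rw [← Nat.add_mul, Nat.sub_add_cancel (Nat.div_le_self _ _)]
  have hRR : ∑ v ∈ R, (n - n / e v) * x v = ∑ v ∈ R, (n - n / e v) * x' v := by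
    refine Finset.sum_congr rfl fun v hv => ?_
    rw [hR, Finset.mem_sdiff] at hv
    rw [hx v hv.2]
  have e1 := hadd x
  have e2 := hadd x'
  rw [h1, h2, hs x, hs x']
  have e3 : n * m + n * ∑ v ∈ B, x v = n * m' + n * ∑ v ∈ B, x' v := by
    rw [← Nat.mul_add, h0, Nat.mul_add]
  omega

end Pool.Agent.V1143.KC
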