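import Pool.Agent.V1143.KC.KA
import Pool.Agent.V1143.KC.Congr

/-!
# Congruent Euler products over function fields in extensions of prime power degree
-/

set_option autoImplicit false
set_option linter.all false
set_option maxHeartbeats 4000000

open Polynomial FF Module Pool.Agent.W343.BSD

namespace Pool.Agent.V1143.KC.Gen

open Pool.Agent.V1143.KC.KA

theorem X_dvd_expand {d : ℕ} {P : ℤ[X]} (hP : P.coeff 0 = 1) :
    (Polynomial.X : ℤ[X]) ^ d ∣ expand ℤ d P - 1 := by
  have h1 : (Polynomial.X : ℤ[X]) ∣ P - 1 := by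
    rw [Polynomial.X_dvd_iff, Polynomial.coeff_sub, hP, Polynomial.coeff_one_zero, sub_self]
  have h2 := map_dvd (expand ℤ d) h1
  rw [map_sub, map_one, Polynomial.expand_X] at h2
  exact h2

section

variable {k K : Type} [Field k] [Finite k] [Field K] [Algebra k K] [FF.IsFF k K]

theorem const_cond (l : ℕ) (P : Place k K → ℤ[X]) (hP : ∀ v, (P v).coeff 0 = 1) (v : Place k K) :
    (PowerSeries.X : PowerSeries (ZMod l)) ^ v.deg ∣
      (((expand ℤ v.deg (P v)).map (Int.castRingHom (ZMod l)) : (ZMod l)[X]) :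
        PowerSeries (ZMod l)) - 1 := by
  have h1 := X_dvd_expand (d := v.deg) (hP v)
  have h2 := map_dvd (Polynomial.mapRingHom (Int.castRingHom (ZMod l))) h1
  have h3 := map_dvd (Polynomial.coeToPowerSeries.ringHom (R := ZMod l)) h2
  simpa using h3

theorem prod_mod (l : ℕ) {P : Place k K → ℤ[X]} {Λ : PowerSeries ℤ} (h : IsProduct k P Λ) :
    redL l Λ * eulerProd (fun v : Place k K => v.deg)
      (fun v => (((expand ℤ v.deg (P v)).map (Int.castRingHom (ZMod l)) : (ZMod l)[X]) :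
        PowerSeries (ZMod l))) = 1 := by
  unfold IsProduct at h
  simp only [S.deg_eq] at h
  have h2 := congrArg (redL l) h
  rw [map_mul, map_one, map_eulerProd (fun n => places_fin n)] at h2
  rw [← h2]
  congr 2
  funext v
  exact (redL_poly l _).symm

theorem gen_identity {l : ℕ} [Fact l.Prime] {P P' : Place k K → ℤ[X]}
    (hP : ∀ v, (P v).coeff 0 = 1) (hP' : ∀ v, (P' v).coeff 0 = 1) (B : Finset (Place k K))
    (hB : ∀ v, v ∉ B → (P v).map (Int.castRingHom (ZMod l)) =
      (P' v).map (Int.castRingHom (ZMod l))) {Λ Λ' : PowerSeries ℤ} (hΛ : IsProduct k P Λ)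
    (hΛ' : IsProduct k P' Λ') {U V U' V' : ℤ[X]} (hU : Λ * (V : PowerSeries ℤ) = U)
    (hU' : Λ' * (V' : PowerSeries ℤ) = U') :
    V.map (Int.castRingHom (ZMod l)) * U'.map (Int.castRingHom (ZMod l)) *
        ∏ v ∈ B, (expand ℤ v.deg (P' v)).map (Int.castRingHom (ZMod l)) =
      U.map (Int.castRingHom (ZMod l)) * V'.map (Int.castRingHom (ZMod l)) *
        ∏ v ∈ B, (expand ℤ v.deg (P v)).map (Int.castRingHom (ZMod l)) := by
  classical
  have h1 := prod_mod l hΛ
  have h2 := prod_mod l hΛ'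
  have h3 := fin_factor' (d := fun v : Place k K => v.deg) (fun n => places_fin n)
    (F := fun v => (((expand ℤ v.deg (P v)).map (Int.castRingHom (ZMod l)) : (ZMod l)[X]) :
        PowerSeries (ZMod l)))
    (W := fun v => (((expand ℤ v.deg (P' v)).map (Int.castRingHom (ZMod l)) : (ZMod l)[X]) :
        PowerSeries (ZMod l)))
    (const_cond l P hP) (const_cond l P' hP') B
    (fun v hv => by
      show (((expand ℤ v.deg (P v)).map (Int.castRingHom (ZMod l)) : (ZMod l)[X]) :
        PowerSeries (ZMod l)) = _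
      rw [Polynomial.map_expand, Polynomial.map_expand, hB v hv])
  rw [← coe_prod', ← coe_prod'] at h3
  have h4 : (V.map (Int.castRingHom (ZMod l)) : PowerSeries (ZMod l)) =
      (U.map (Int.castRingHom (ZMod l)) : PowerSeries (ZMod l)) *
        eulerProd (fun v : Place k K => v.deg)
      (fun v => (((expand ℤ v.deg (P v)).map (Int.castRingHom (ZMod l)) : (ZMod l)[X]) :
        PowerSeries (ZMod l))) := by
    rw [← redL_poly, ← redL_poly, ← hU, map_mul, mul_assoc, mul_comm (redL l (V : PowerSeries ℤ)),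
      ← mul_assoc, h1, one_mul]
  have h5 : (V'.map (Int.castRingHom (ZMod l)) : PowerSeries (ZMod l)) =
      (U'.map (Int.castRingHom (ZMod l)) : PowerSeries (ZMod l)) *
        eulerProd (fun v : Place k K => v.deg)
      (fun v => (((expand ℤ v.deg (P' v)).map (Int.castRingHom (ZMod l)) : (ZMod l)[X]) :
        PowerSeries (ZMod l))) := by
    rw [← redL_poly, ← redL_poly, ← hU', map_mul, mul_assoc,
      mul_comm (redL l (V' : PowerSeries ℤ)), ← mul_assoc, h2, one_mul]
  apply Polynomial.coe_injective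
  rw [Polynomial.coe_mul, Polynomial.coe_mul, Polynomial.coe_mul, Polynomial.coe_mul, h4, h5]
  generalize eulerProd (fun v : Place k K => v.deg)
      (fun v => (((expand ℤ v.deg (P v)).map (Int.castRingHom (ZMod l)) : (ZMod l)[X]) :
        PowerSeries (ZMod l))) = E at h3 ⊢
  generalize eulerProd (fun v : Place k K => v.deg)
      (fun v => (((expand ℤ v.deg (P' v)).map (Int.castRingHom (ZMod l)) : (ZMod l)[X]) :
        PowerSeries (ZMod l))) = E' at h3 ⊢
  linear_combination ((U.map (Int.castRingHom (ZMod l)) : (ZMod l)[X]) : PowerSeries (ZMod l)) *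
    ((U'.map (Int.castRingHom (ZMod l)) : (ZMod l)[X]) : PowerSeries (ZMod l)) * h3

theorem coeff_zero_of {P : Place k K → ℤ[X]} (hP : ∀ v, (P v).coeff 0 = 1) {Λ : PowerSeries ℤ}
    (hΛ : IsProduct k P Λ) {V U : ℤ[X]} (hV : V.coeff 0 = 1)
    (hU : Λ * (V : PowerSeries ℤ) = (U : PowerSeries ℤ)) : U.coeff 0 = 1 := by
  have hdK : ∀ v : Place k K, 0 < v.deg := fun v => Pool.Agent.H525R3.FFp.deg_pos v
  have hΛ1 : Λ * eulerProd (fun v : Place k K => v.deg)
      (fun v => Pool.Agent.Y701.PE.sub v.deg (P v : PowerSeries ℤ)) = 1 := by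
    have h1 := hΛ
    unfold IsProduct at h1
    simp only [S.deg_eq] at h1
    rw [← h1]
    congr 2
    funext v
    exact Pool.Agent.Y701.PE.sub_poly (hdK v).ne' (P v)
  exact coeff_of hP hΛ1 hV hU

/-- the comparison of the multiplicities over `K` -/
theorem gen_mult {l : ℕ} [Fact l.Prime] (b : ℕ) {P P' : Place k K → ℤ[X]}
    (hP : ∀ v, (P v).coeff 0 = 1) (hP' : ∀ v, (P' v).coeff 0 = 1) (B : Finset (Place k K))
    (hB : ∀ v, v ∉ B → (P v).map (Int.castRingHom (ZMod l)) =
      (P' v).map (Int.castRingHom (ZMod l))) {Λ Λ' : PowerSeries ℤ} (hΛ : IsProduct k P Λ)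
    (hΛ' : IsProduct k P' Λ') {U V U' V' : ℤ[X]} (hV : V.coeff 0 = 1) (hV' : V'.coeff 0 = 1)
    (hU : Λ * (V : PowerSeries ℤ) = U) (hU' : Λ' * (V' : PowerSeries ℤ) = U') :
    mult l (Nat.card k) b V + mult l (Nat.card k) b U' + ∑ v ∈ B, locMult l b v (P' v) =
      mult l (Nat.card k) b U + mult l (Nat.card k) b V' + ∑ v ∈ B, locMult l b v (P v) := by
  classical
  have hid := gen_identity hP hP' B hB hΛ hΛ' hU hU'
  have hU0 := coeff_zero_of hP hΛ hV hU
  have hU0' := coeff_zero_of hP' hΛ' hV' hU'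
  have n1 : ∀ {A : ℤ[X]}, A.coeff 0 = 1 → A.map (Int.castRingHom (ZMod l)) ≠ 0 :=
    fun h => Pool.Agent.Y701.PE.map_ne_of_coeff h
  have n2 : ∀ (A : ℤ[X]) (v : Place k K), A.coeff 0 = 1 →
      (expand ℤ v.deg A).map (Int.castRingHom (ZMod l)) ≠ 0 := by
    intro A v hA
    apply n1
    have hdK : 0 < v.deg := Pool.Agent.H525R3.FFp.deg_pos v
    rw [Polynomial.coeff_expand hdK, if_pos (dvd_zero _), Nat.zero_div, hA]
  have hmu := congrArg (Polynomial.rootMultiplicity (((Nat.card k : ℕ) : ZMod l) ^ b)⁻¹) hid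
  rw [rm_mul _ (mul_ne_zero (n1 hV) (n1 hU0')) (Finset.prod_ne_zero_iff.2 fun v _ => n2 _ v (hP' v)),
    rm_mul _ (mul_ne_zero (n1 hU0) (n1 hV')) (Finset.prod_ne_zero_iff.2 fun v _ => n2 _ v (hP v)),
    rm_mul _ (n1 hV) (n1 hU0'), rm_mul _ (n1 hU0) (n1 hV'),
    rm_prod _ _ _ (fun v _ => n2 _ v (hP' v)), rm_prod _ _ _ (fun v _ => n2 _ v (hP v))] at hmu
  unfold locMult mult
  simp only [S.deg_eq]
  exact hmu

end

/-- the ramification index is a divisor of the degree -/
theorem ram_pos_gen {k K k' L : Type} [Field k] [Finite k] [Field K] [Algebra k K] [FF.IsFF k K]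
    [Field k'] [Finite k'] [Field L] [Algebra k' L] [Algebra k k'] [Algebra k L] [Algebra K L]
    [IsScalarTower k K L] [IsScalarTower k k' L] [FiniteDimensional K L] [IsGalois K L]
    (hL : IsCurveField k' L) (v : Place k K) : 0 < finrank K L / ramIndex k' L v := by
  have i2 : FF.IsFF k' L := ⟨hL.essFiniteType, hL.trdeg_eq_one⟩
  have i3 : FF.IsFF k L := isFF_of_finite (K := K)
  obtain ⟨St, e, f, D⟩ := exists_galoisFiber (L := L) v
  rw [Pool.Agent.V1143.KC.KA.ramIndex_eq (k' := k') D]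
  have h1 := D.mul
  have h2 : 0 < finrank K L := finrank_pos
  have h3 : e ∣ finrank K L := by
    rw [← h1]
    exact Dvd.intro_left (St.card * f) (by ring)
  obtain ⟨w, hw⟩ := D.nonempty
  exact Nat.div_pos (Nat.le_of_dvd h2 h3) ((D.isOver w hw).1)

/-- arithmetic: from the two formulas of Kida to the comparison over `L` -/
theorem combine_gen {J : Type} [DecidableEq J] (n r mU mV mR mW mU' mV' mR' mW' MT MT' : ℕ)
    (e : J → ℕ) (x x' : J → ℕ) (T B : Finset J) (hTB : T ⊆ B)
    (hfin : {v | e v ≠ 1}.Finite) (hx : ∀ v, v ∉ B → x v = x' v)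
    (h0 : mV + mU' + ∑ v ∈ B, x' v = mU + mV' + ∑ v ∈ B, x v)
    (h1 : r * (mR + MT) + n * mV = r * mW + n * (mU + ∑ v ∈ T, x v) +
      ∑ᶠ v ∈ {v | v ∉ T}, (n - n / e v) * x v)
    (h2 : r * (mR' + MT') + n * mV' = r * mW' + n * (mU' + ∑ v ∈ T, x' v) +
      ∑ᶠ v ∈ {v | v ∉ T}, (n - n / e v) * x' v) :
    r * (mR + MT + mW') + ∑ v ∈ B \ T, n / e v * x v =
      r * (mR' + MT' + mW) + ∑ v ∈ B \ T, n / e v * x' v := by
  set R : Finset J := hfin.toFinset \ B with hR
  have hs : ∀ y : J → ℕ, ∑ᶠ v ∈ {v | v ∉ T}, (n - n / e v) * y v =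
      ∑ v ∈ B \ T, (n - n / e v) * y v + ∑ v ∈ R, (n - n / e v) * y v := by
    intro y
    have hd : Disjoint (B \ T) R := by
      rw [hR, Finset.disjoint_left]
      intro v hv hv'
      rw [Finset.mem_sdiff] at hv hv'
      exact hv'.2 hv.1
    rw [← Finset.sum_union hd]
    have h3 : ∑ᶠ v ∈ {v | v ∉ T}, (n - n / e v) * y v =
        ∑ᶠ v, (if v ∈ T then 0 else (n - n / e v) * y v) := by
      refine finsum_congr fun v => ?_
      by_cases hv : v ∈ T
      · rw [if_pos hv, finsum_eq_if, if_neg (by simpa using hv)]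
      · rw [if_neg hv, finsum_eq_if, if_pos (by simpa using hv)]
    rw [h3, finsum_eq_sum_of_support_subset (s := (B \ T) ∪ R)]
    · refine Finset.sum_congr rfl fun v hv => ?_
      rw [if_neg]
      rw [Finset.mem_union, Finset.mem_sdiff, hR, Finset.mem_sdiff] at hv
      rcases hv with hv | hv
      · exact hv.2
      · exact fun h => hv.2 (hTB h)
    · intro v hv
      rw [Function.mem_support] at hv
      rw [Finset.mem_coe, Finset.mem_union]
      have hvT : v ∉ T := fun h => hv (if_pos h)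
      rw [if_neg hvT] at hv
      by_cases hvB : v ∈ B
      · exact Or.inl (Finset.mem_sdiff.2 ⟨hvB, hvT⟩)
      · right
        rw [hR, Finset.mem_sdiff, Set.Finite.mem_toFinset]
        refine ⟨fun h => hv ?_, hvB⟩
        rw [h, Nat.div_one, Nat.sub_self, zero_mul]
  have hadd : ∀ y : J → ℕ, ∑ v ∈ B \ T, (n - n / e v) * y v + ∑ v ∈ B \ T, n / e v * y v =
      n * ∑ v ∈ B \ T, y v := by
    intro y
    rw [← Finset.sum_add_distrib, Finset.mul_sum]
    refine Finset.sum_congr rfl fun v _ => ?_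
    rw [← Nat.add_mul, Nat.sub_add_cancel (Nat.div_le_self _ _)]
  have hsplit : ∀ y : J → ℕ, ∑ v ∈ B, y v = ∑ v ∈ B \ T, y v + ∑ v ∈ T, y v := fun y =>
    (Finset.sum_sdiff hTB).symm
  have hRR : ∑ v ∈ R, (n - n / e v) * x v = ∑ v ∈ R, (n - n / e v) * x' v := by
    refine Finset.sum_congr rfl fun v hv => ?_
    rw [hR, Finset.mem_sdiff] at hv
    rw [hx v hv.2]
  have e1 := hadd x
  have e2 := hadd x'
  rw [hs x] at h1
  rw [hs x'] at h2
  rw [hsplit x, hsplit x'] at h0
  have e3 : n * (mV + mU' + (∑ v ∈ B \ T, x' v + ∑ v ∈ T, x' v)) =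
      n * (mU + mV' + (∑ v ∈ B \ T, x v + ∑ v ∈ T, x v)) := by rw [h0]
  simp only [Nat.mul_add] at e3 h1 h2 ⊢
  omega

end Pool.Agent.V1143.KC.Gen
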