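import Pool.Agent.V1143.KC.Gen

set_option autoImplicit false
set_option linter.all false
set_option maxHeartbeats 4000000

open Polynomial FF Module Pool.Agent.W343.BSD

namespace Pool.Agent.V1143.KC.Gen

open Pool.Agent.V1143.KC.KA

/-- the local multiplicity is zero if and only if the Euler factor is a unit at the central point -/
theorem locMult_unit {k K : Type} [Field k] [Finite k] [Field K] [Algebra k K] [FF.IsFF k K]
    {ℓ : ℕ} [Fact ℓ.Prime] (b : ℕ) (v : Place k K) (P : ℤ[X]) (hP : P.coeff 0 = 1) :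
    locMult ℓ b v P = 0 ↔ (P.map (Int.castRingHom (ZMod ℓ))).eval
        (((Nat.card (S.Res v) : ℕ) : ZMod ℓ) ^ b)⁻¹ ≠ 0 := by
  have hdK : 0 < v.deg := Pool.Agent.H525R3.FFp.deg_pos v
  have hcK : Nat.card (S.Res v) = Nat.card k ^ v.deg := Pool.Agent.V1173.KA.card_res v
  have h1 : Pool.Agent.V1173.KA.mu ℓ (Nat.card k) b (expand ℤ v.deg P) = locMult ℓ b v P := by
    unfold locMult
    rw [S.deg_eq]
    rfl
  rw [← h1, hcK]
  exact Pool.Agent.V1173.KA.mu_expand_eq_zero _ _ hdK hP

end Pool.Agent.V1143.KC.Gen
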