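import Pool.Agent.V1173.KA.Loc

/-!
# Kida's formula for abelian varieties over function fields (copied from MP_1d384c_nt.KidaAbelian)

The multiplicity, modulo a prime `ℓ`, of the central zero of the `L`-function of an abelian variety (or of
any Euler product) over a function field of one variable over a finite field, in Galois extensions of
degree a power of `ℓ`: an exact formula, a criterion for the non-vanishing, and the consequence for the
conjecture of Birch and Swinnerton-Dyer.
-/

set_option autoImplicit false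
set_option linter.all false
set_option maxHeartbeats 4000000

open Polynomial FF Module Pool.Agent.W343.BSD

namespace Pool.Agent.V1143.KC.KA

section defs

/-- `Λ(T) = ∏ P_v(T ^ (deg v))⁻¹`, the product over the places `v` of `K` over `k`. -/
def IsProduct (k : Type) {K : Type} [Field k] [Field K] [Algebra k K] (P : Place k K → ℤ[X])
    (Λ : PowerSeries ℤ) : Prop :=
  Λ * eulerProd (fun v : Place k K => S.deg v)
    (fun v => ((expand ℤ (S.deg v) (P v) : ℤ[X]) : PowerSeries ℤ)) = 1

/-- `P = ∏ (1 - α_i T)` and `Q = ∏ (1 - α_i ^ f T)` for complex numbers `α_i`. -/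
def IsPower (f : ℕ) (P Q : ℤ[X]) : Prop :=
  ∃ (n : ℕ) (α : Fin n → ℂ), P.map (Int.castRingHom ℂ) = ∏ i, (1 - C (α i) * X) ∧
    Q.map (Int.castRingHom ℂ) = ∏ i, (1 - C (α i ^ f) * X)

/-- The place `w` of `L` lies over the place `v` of `K`, with the ramification index `e`. The fields of
constants `k` and `k'` may be different. -/
def LiesOver {k K k' L : Type} [Field k] [Field K] [Algebra k K] [Field k'] [Field L]
    [Algebra k' L] [Algebra K L] (w : Place k' L) (v : Place k K) (e : ℕ) : Prop :=
  0 < e ∧ ∀ f : K, w.ord (algebraMap K L f) = e * v.ord f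

/-- The places of `L` over the places in `T`. -/
def Above {k K : Type} (k' L : Type) [Field k] [Field K] [Algebra k K] [Field k'] [Field L]
    [Algebra k' L] [Algebra K L] (T : Finset (Place k K)) : Set (Place k' L) :=
  {w | ∃ v ∈ T, ∃ e : ℕ, LiesOver w v e}

/-- The ramification index of `v` in the Galois extension `L` of `K` (the largest of the ramification
indices of the places of `L` over `v`, which are all equal). -/
noncomputable def ramIndex {k K : Type} (k' L : Type) [Field k] [Field K] [Algebra k K] [Field k']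
    [Field L] [Algebra k' L] [Algebra K L] (v : Place k K) : ℕ :=
  sSup {e : ℕ | ∃ w : Place k' L, LiesOver w v e}

/-- The multiplicity modulo `ℓ` of the zero `q ^ (-b)` of `A`. -/
noncomputable def mult (ℓ : ℕ) [Fact ℓ.Prime] (q b : ℕ) (A : ℤ[X]) : ℕ :=
  (A.map (Int.castRingHom (ZMod ℓ))).rootMultiplicity (((q : ℕ) : ZMod ℓ) ^ b)⁻¹

/-- The multiplicity modulo `ℓ` of the zero `q ^ (-b)` of the Euler factor `P(T ^ (deg v))`, where `q` is
the number of elements of the field of constants. -/
noncomputable def locMult {k K : Type} [Field k] [Field K] [Algebra k K] (ℓ : ℕ) [Fact ℓ.Prime]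
    (b : ℕ) (v : Place k K) (P : ℤ[X]) : ℕ :=
  mult ℓ (Nat.card k) b (expand ℤ (S.deg v) P)

/-- The order of vanishing of `R` at `q ^ (-b)`. -/
noncomputable def order (q b : ℕ) (R : ℤ[X]) : ℕ :=
  (R.map (Int.castRingHom ℚ)).rootMultiplicity ((q : ℚ) ^ b)⁻¹

/-- The functional equation `P(T) = q ^ g T ^ (2 g) P(1 / (q T))` of the characteristic polynomial
`det (1 - Frob T)` of an abelian variety of dimension `g` over the field with `q` elements; the number
of its points is `P(1)`. -/
def IsSymmetric (q g : ℕ) (P : ℤ[X]) : Prop :=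
  P.natDegree ≤ 2 * g ∧ ∀ i ≤ g, P.coeff (2 * g - i) = (q : ℤ) ^ (g - i) * P.coeff i

end defs

section

variable {k K k' L : Type} [Field k] [Finite k] [Field K] [Algebra k K] [FF.IsFF k K]
  [Field k'] [Finite k'] [Field L] [Algebra k' L] [Algebra k k'] [Algebra k L] [Algebra K L]
  [IsScalarTower k K L] [IsScalarTower k k' L] [FF.IsFF k L] [FF.IsFF k' L]
  [FiniteDimensional K L] [IsGalois K L]

theorem lies_unique {w : Place k' L} {v : Place k K} {e e' : ℕ} (h : LiesOver w v e)
    (h' : LiesOver w v e') : e = e' := by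
  obtain ⟨t, ht⟩ := v.surj
  have h1 := h.2 t
  have h2 := h'.2 t
  rw [ht.2, mul_one] at h1 h2
  rw [h1] at h2
  exact_mod_cast h2

theorem ramIndex_eq {v : Place k K} {St : Finset (Place k L)} {e f : ℕ}
    (D : GaloisFiber v St e f) : ramIndex k' L v = e := by
  have h1 : {n : ℕ | ∃ w : Place k' L, LiesOver w v n} = {e} := by
    ext n
    constructor
    · rintro ⟨w, hw⟩
      have h2 : Over (downPlace (k := k) w) v n := ⟨hw.1, hw.2⟩
      have h3 := D.isOver _ (D.mem _ _ h2)
      exact lies_unique hw ⟨h3.1, h3.2⟩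
    · rintro rfl
      obtain ⟨w, hw⟩ := D.nonempty
      have h3 := D.isOver _ hw
      exact ⟨upPlace w, h3.1, h3.2⟩
  unfold ramIndex
  rw [h1, csSup_singleton]

theorem cc_euler {P : Place k K → ℤ[X]} (hP : ∀ v, (P v).coeff 0 = 1) {Λ : PowerSeries ℤ}
    (h : Λ * eulerProd (fun v : Place k K => v.deg)
      (fun v => Pool.Agent.Y701.PE.sub v.deg (P v : PowerSeries ℤ)) = 1) :
    PowerSeries.constantCoeff Λ = 1 := by
  have h1 : PowerSeries.constantCoeff (eulerProd (fun v : Place k K => v.deg)
      (fun v => Pool.Agent.Y701.PE.sub v.deg (P v : PowerSeries ℤ))) = 1 := by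
    rw [← PowerSeries.coeff_zero_eq_constantCoeff_apply,
      coeff_eulerProd (fun n => places_fin n), PowerSeries.coeff_zero_eq_constantCoeff_apply,
      map_prod]
    refine Finset.prod_eq_one fun v _ => ?_
    rw [Pool.Agent.Y701.PE.cc_sub, Pool.Agent.V1173.KA.cc_coe (hP v)]
  have h2 := congrArg PowerSeries.constantCoeff h
  rwa [map_mul, h1, mul_one, map_one] at h2

theorem coeff_of {P : Place k K → ℤ[X]} (hP : ∀ v, (P v).coeff 0 = 1) {Λ : PowerSeries ℤ}
    (h : Λ * eulerProd (fun v : Place k K => v.deg)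
      (fun v => Pool.Agent.Y701.PE.sub v.deg (P v : PowerSeries ℤ)) = 1) {V U : ℤ[X]}
    (hV : V.coeff 0 = 1) (hU : Λ * (V : PowerSeries ℤ) = (U : PowerSeries ℤ)) :
    U.coeff 0 = 1 := by
  have h1 := congrArg PowerSeries.constantCoeff hU
  rw [map_mul, cc_euler hP h, one_mul, Pool.Agent.V1173.KA.cc_coe hV,
    ← PowerSeries.coeff_zero_eq_constantCoeff_apply, Polynomial.coeff_coe] at h1
  exact h1.symm

end

/-- **Kida's formula for abelian varieties over function fields.**

Let `K` be the function field of a curve over a finite field `k` with `q` elements, `ℓ` a prime different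
from the characteristic and `L` a finite Galois extension of `K` of degree a power of `ℓ`, with the field
of constants `k'` with `q'` elements. Let `P_v` and `P'_w` be any integral polynomials with constant
coefficient `1` for the places `v` of `K` and `w` of `L`, with `Λ(T) = ∏ P_v(T ^ (deg v))⁻¹` and
`Λ'(T) = ∏ P'_w(T ^ (deg w))⁻¹`, and `T` a finite set of places of `K`, such that for `w` over `v ∉ T`
with residue degree `f` the reciprocal zeros of `P'_w` are the `f`-th powers of those of `P_v`; the
factors over `T` are arbitrary. Let `Λ V = U` and `Λ' W = R` with integral polynomials, `V(0) = W(0) = 1`.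

The main example, with `b = 1`, is an abelian variety `A` of any dimension over `K`: `P_v` and `P'_w` are
the Euler factors `det (1 - Frob T)` on the invariants of inertia of `V_l(A)`, and `T` contains the places
which are ramified in `L` and where the reduction of `A` over `L` is better than over `K`; for example
`T` may be empty if `A` has semistable reduction at the places which are ramified in `L`. The functions
`Λ = L(A/K, T)` and `Λ' = L(A/L, T)` are rational functions, and polynomials if `A` has no constant part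
over the algebraic closure of `k` (Grothendieck). Other examples are the cohomology groups of odd degree
`2 b - 1` of smooth projective varieties.

Let `m` be the multiplicity modulo `ℓ` of the zero `q ^ (-b)` (over `K`) or `q' ^ (-b)` (over `L`), and
`m_v` the one of `P_v(T ^ (deg v))`, `m_w` of `P'_w(T ^ (deg w))`. Let `e_v` be the ramification index
of `v` in `L`.

(1) Only finitely many places of `K` are ramified in `L`, there are finitely many places over `T`, and
`[k' : k] (m(R) - m(W) + ∑_{w over T} m_w) =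
  [L : K] (m(U) - m(V) + ∑_{v in T} m_v) + ∑_{v not in T} ([L : K] - [L : K] / e_v) m_v`.

(2) `m_v = 0` if and only if `P_v` does not vanish modulo `ℓ` at `q_v ^ (-b)`; for `b = 1` and `P_v` with
the functional equation of an abelian variety this means that `ℓ` does not divide the number `P_v(1)` of
the points of the reduction.

(3) The order of vanishing of `R` at `q' ^ (-b)` is at most `m(R)`.

(4) If `m(V) = m(W) = 0`, then `m(R) = 0` and `m_w = 0` for the `w` over `T` if and only if `m(U) = 0`,
`m_v = 0` for the `v` in `T` and `m_v = 0` for the `v` not in `T` which are ramified in `L`; and then `R`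
does not vanish at `q' ^ (-b)`. So for an abelian variety `A` without constant part, with `T` empty, the
central value over `L` is a unit at `ℓ` if and only if it is one over `K` and `ℓ` does not divide the
numbers of points of the reductions at the places which are ramified in `L`; and then
`rank A(L) = ord L(A/L, T) = 0` by Tate's inequality, the conjecture of Birch and Swinnerton-Dyer. -/
theorem kida_gen (k K k' L : Type) [Field k] [Finite k] [Field K] [Algebra k K] [Field k'] [Finite k']
    [Field L] [Algebra k' L] [Algebra k k'] [Algebra k L] [Algebra K L] [IsScalarTower k K L]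
    [IsScalarTower k k' L] [FiniteDimensional K L] [IsGalois K L]
    (hK : IsCurveField k K) (hL : IsCurveField k' L) (ℓ s : ℕ) [Fact ℓ.Prime] (hℓ : (ℓ : k) ≠ 0)
    (hdeg : finrank K L = ℓ ^ s) (b : ℕ) (P : Place k K → ℤ[X]) (P' : Place k' L → ℤ[X])
    (hP : ∀ v, (P v).coeff 0 = 1) (hP' : ∀ w, (P' w).coeff 0 = 1) (T : Finset (Place k K))
    (hPP' : ∀ (v : Place k K) (w : Place k' L) (e f : ℕ), v ∉ T → LiesOver w v e →
      Nat.card (S.Res w) = Nat.card (S.Res v) ^ f → IsPower f (P v) (P' w))
    (Λ Λ' : PowerSeries ℤ) (hΛ : IsProduct k P Λ) (hΛ' : IsProduct k' P' Λ')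
    (U V R W : ℤ[X]) (hV : V.coeff 0 = 1) (hU : Λ * (V : PowerSeries ℤ) = (U : PowerSeries ℤ))
    (hW : W.coeff 0 = 1) (hR : Λ' * (W : PowerSeries ℤ) = (R : PowerSeries ℤ)) :
    {v : Place k K | ramIndex k' L v ≠ 1}.Finite ∧ (Above k' L T).Finite ∧
    finrank k k' * (mult ℓ (Nat.card k') b R + ∑ᶠ w ∈ Above k' L T, locMult ℓ b w (P' w)) +
        finrank K L * mult ℓ (Nat.card k) b V =
      finrank k k' * mult ℓ (Nat.card k') b W +
        finrank K L * (mult ℓ (Nat.card k) b U + ∑ v ∈ T, locMult ℓ b v (P v)) +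
        ∑ᶠ v ∈ {v : Place k K | v ∉ T},
          (finrank K L - finrank K L / ramIndex k' L v) * locMult ℓ b v (P v) ∧
    (∀ v : Place k K, locMult ℓ b v (P v) = 0 ↔
      ((P v).map (Int.castRingHom (ZMod ℓ))).eval
        (((Nat.card (S.Res v) : ℕ) : ZMod ℓ) ^ b)⁻¹ ≠ 0) ∧
    (∀ (v : Place k K) (g : ℕ), IsSymmetric (Nat.card (S.Res v)) g (P v) → b = 1 →
      (locMult ℓ b v (P v) = 0 ↔ ¬ (ℓ : ℤ) ∣ (P v).eval 1)) ∧
    order (Nat.card k') b R ≤ mult ℓ (Nat.card k') b R ∧
    (mult ℓ (Nat.card k) b V = 0 → mult ℓ (Nat.card k') b W = 0 →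
      ((mult ℓ (Nat.card k') b R = 0 ∧ ∀ w ∈ Above k' L T, locMult ℓ b w (P' w) = 0) ↔
        (mult ℓ (Nat.card k) b U = 0 ∧ (∀ v ∈ T, locMult ℓ b v (P v) = 0) ∧
          ∀ v : Place k K, v ∉ T → ramIndex k' L v ≠ 1 → locMult ℓ b v (P v) = 0))) ∧
    (mult ℓ (Nat.card k') b R = 0 → order (Nat.card k') b R = 0) := by
  classical
  have i1 : FF.IsFF k K := ⟨hK.essFiniteType, hK.trdeg_eq_one⟩
  have i2 : FF.IsFF k' L := ⟨hL.essFiniteType, hL.trdeg_eq_one⟩
  have i3 : FF.IsFF k L := isFF_of_finite (K := K)
  have hℓp : ℓ.Prime := Fact.out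
  have hD := fun v : Place k K => exists_galoisFiber (L := L) v
  choose St e f D using hD
  have hre : ∀ v, ramIndex k' L v = e v := fun v => ramIndex_eq (D v)
  have hepos : ∀ v, 0 < e v := by
    intro v
    obtain ⟨w, hw⟩ := (D v).nonempty
    exact ((D v).isOver w hw).1
  have hfin : {v : Place k K | ramIndex k' L v ≠ 1}.Finite := by
    refine (Pool.Agent.Y701.R1.ram_finite (k := k) (K := K) (L := L)).subset ?_
    intro v hv
    obtain ⟨w, hw⟩ := (D v).nonempty
    refine ⟨w, e v, (D v).isOver w hw, ?_⟩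
    rw [← hre v]
    exact hv
  set B : Finset (Place k K) := hfin.toFinset with hBd
  have hB : ∀ v, v ∉ B → e v = 1 := by
    intro v hv
    rw [hBd, Set.Finite.mem_toFinset] at hv
    by_contra h
    exact hv (by rw [← hre v] at h; exact h)
  -- the places over `T`
  have hAfin : (Above k' L T).Finite := by
    refine ((T.biUnion fun v => (St v).image fun w => upPlace (k' := k') w).finite_toSet).subset ?_
    rintro w ⟨v, hv, e', hw⟩
    rw [Finset.mem_coe, Finset.mem_biUnion]
    refine ⟨v, hv, Finset.mem_image.2 ⟨downPlace (k := k) w, (D v).mem _ e' ⟨hw.1, hw.2⟩, rfl⟩⟩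
  set TL : Finset (Place k' L) := hAfin.toFinset with hTLd
  have hTL : ∀ w, w ∈ TL ↔ ∃ v ∈ T, ∃ e : ℕ, Pool.Agent.V1173.KA.LiesOver w v e := by
    intro w
    rw [hTLd, Set.Finite.mem_toFinset]
    exact Iff.rfl
  -- the products
  have hdK : ∀ v : Place k K, 0 < v.deg := fun v => Pool.Agent.H525R3.FFp.deg_pos v
  have hdL : ∀ v : Place k' L, 0 < v.deg := fun v => Pool.Agent.H525R3.FFp.deg_pos v
  have hΛ1 : Λ * eulerProd (fun v : Place k K => v.deg)
      (fun v => Pool.Agent.Y701.PE.sub v.deg (P v : PowerSeries ℤ)) = 1 := by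
    have h1 := hΛ
    unfold IsProduct at h1
    simp only [S.deg_eq] at h1
    rw [← h1]
    congr 2
    funext v
    exact Pool.Agent.Y701.PE.sub_poly (hdK v).ne' (P v)
  have hΛ'1 : Λ' * eulerProd (fun w : Place k' L => w.deg)
      (fun w => Pool.Agent.Y701.PE.sub w.deg (P' w : PowerSeries ℤ)) = 1 := by
    have h1 := hΛ'
    unfold IsProduct at h1
    simp only [S.deg_eq] at h1
    rw [← h1]
    congr 2
    funext v
    exact Pool.Agent.Y701.PE.sub_poly (hdL v).ne' (P' v)
  have hU0 := coeff_of hP hΛ1 hV hU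
  have hR0 := coeff_of hP' hΛ'1 hW hR
  have hmain := Pool.Agent.V1173.KA.kida_T (k' := k') hK.algClosed hℓ hdeg D B hB hP hP' T hPP' TL
    hTL hΛ1 hΛ'1 hU0 hV hU b hR0 hW hR
  have hlocK : ∀ v : Place k K, Pool.Agent.V1173.KA.mu ℓ (Nat.card k) b (expand ℤ v.deg (P v)) =
      locMult ℓ b v (P v) := by
    intro v
    unfold locMult
    rw [S.deg_eq]
    rfl
  have hlocL : ∀ w : Place k' L, Pool.Agent.V1173.KA.mu ℓ (Nat.card k') b (expand ℤ w.deg (P' w)) =
      locMult ℓ b w (P' w) := by
    intro v
    unfold locMult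
    rw [S.deg_eq]
    rfl
  have hsum1 : ∑ᶠ w ∈ Above k' L T, locMult ℓ b w (P' w) = ∑ w ∈ TL, locMult ℓ b w (P' w) := by
    rw [finsum_mem_eq_finite_toFinset_sum _ hAfin]
  have hsum2 : ∑ᶠ v ∈ {v : Place k K | v ∉ T},
      (finrank K L - finrank K L / ramIndex k' L v) * locMult ℓ b v (P v) =
      ∑ v ∈ B, (finrank K L - finrank K L / e v) * (if v ∈ T then 0 else locMult ℓ b v (P v)) := by
    have h1 : ∑ᶠ v ∈ {v : Place k K | v ∉ T},
      (finrank K L - finrank K L / ramIndex k' L v) * locMult ℓ b v (P v) =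
      ∑ᶠ v : Place k K, (finrank K L - finrank K L / e v) *
        (if v ∈ T then 0 else locMult ℓ b v (P v)) := by
      refine finsum_congr fun v => ?_
      by_cases hv : v ∈ T
      · rw [if_pos hv, mul_zero, finsum_eq_if, if_neg (by simpa using hv)]
      · rw [if_neg hv, finsum_eq_if, if_pos (by simpa using hv), hre v]
    rw [h1, finsum_eq_sum_of_support_subset _ (s := B)]
    intro v hv
    rw [Function.mem_support] at hv
    by_contra h
    apply hv
    rw [hB v h, Nat.div_one, Nat.sub_self, zero_mul]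
  have hformula : finrank k k' * (mult ℓ (Nat.card k') b R +
        ∑ᶠ w ∈ Above k' L T, locMult ℓ b w (P' w)) +
        finrank K L * mult ℓ (Nat.card k) b V =
      finrank k k' * mult ℓ (Nat.card k') b W +
        finrank K L * (mult ℓ (Nat.card k) b U + ∑ v ∈ T, locMult ℓ b v (P v)) +
        ∑ᶠ v ∈ {v : Place k K | v ∉ T},
          (finrank K L - finrank K L / ramIndex k' L v) * locMult ℓ b v (P v) := by
    rw [hsum1, hsum2]
    simp only [hlocK, hlocL] at hmain
    exact hmain
  have hcK : ∀ v : Place k K, Nat.card (S.Res v) = Nat.card k ^ v.deg := fun v =>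
    Pool.Agent.V1173.KA.card_res v
  have hloc0 : ∀ v : Place k K, locMult ℓ b v (P v) = 0 ↔
      ((P v).map (Int.castRingHom (ZMod ℓ))).eval
        (((Nat.card (S.Res v) : ℕ) : ZMod ℓ) ^ b)⁻¹ ≠ 0 := by
    intro v
    rw [← hlocK v, hcK v]
    exact Pool.Agent.V1173.KA.mu_expand_eq_zero _ _ (hdK v) (hP v)
  have hqk : ((Nat.card k : ℕ) : ZMod ℓ) ≠ 0 := card_ne_zero_mod (k := k) hℓ
  have hℓk' : (ℓ : k') ≠ 0 := by
    rw [← map_natCast (algebraMap k k')]
    exact (_root_.map_ne_zero _).2 hℓ
  have hqk' : ((Nat.card k' : ℕ) : ZMod ℓ) ≠ 0 := card_ne_zero_mod (k := k') hℓk'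
  have hord : order (Nat.card k') b R ≤ mult ℓ (Nat.card k') b R :=
    Pool.Agent.V1173.KA.order_le_mu hqk' (Pool.Agent.Y701.PE.map_ne_of_coeff hR0)
  refine ⟨hfin, hAfin, hformula, hloc0, ?_, hord, ?_, fun h => by omega⟩
  · rintro v g ⟨hg1, hg2⟩ rfl
    rw [hloc0 v]
    have hqv : ((Nat.card (S.Res v) : ℕ) : ZMod ℓ) ≠ 0 := by
      rw [hcK v]
      push_cast
      exact pow_ne_zero _ hqk
    have h1 := Pool.Agent.V1173.KA.eval_central hqv hg1 hg2
    rw [pow_one, ← ZMod.intCast_zmod_eq_zero_iff_dvd, ← h1]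
    constructor
    · intro h
      exact mul_ne_zero (pow_ne_zero _ hqv) h
    · intro h
      exact right_ne_zero_of_mul h
  · intro hV0 hW0
    have hj : Module.Finite k k' := Module.Finite.of_finite
    have hkk : finrank k k' ≠ 0 := finrank_pos.ne'
    have hn0 : finrank K L ≠ 0 := finrank_pos.ne'
    have h1 := hformula
    rw [hV0, hW0, mul_zero, mul_zero, add_zero, zero_add, hsum1, hsum2] at h1
    have hA1 : (mult ℓ (Nat.card k') b R = 0 ∧ ∀ w ∈ Above k' L T, locMult ℓ b w (P' w) = 0) ↔
        finrank k k' * (mult ℓ (Nat.card k') b R + ∑ w ∈ TL, locMult ℓ b w (P' w)) = 0 := by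
      rw [mul_eq_zero, or_iff_right hkk, Nat.add_eq_zero_iff, Finset.sum_eq_zero_iff]
      refine and_congr Iff.rfl ?_
      refine forall_congr' fun w => ?_
      rw [hTLd, Set.Finite.mem_toFinset]
    rw [hA1, h1, Nat.add_eq_zero_iff, mul_eq_zero, or_iff_right hn0, Nat.add_eq_zero_iff,
      Finset.sum_eq_zero_iff, Finset.sum_eq_zero_iff, and_assoc]
    refine and_congr Iff.rfl (and_congr Iff.rfl ?_)
    constructor
    · intro h v hvT hv
      have hvB : v ∈ B := by
        rw [hBd, Set.Finite.mem_toFinset]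
        exact hv
      have h2 := h v hvB
      rw [if_neg hvT] at h2
      refine (mul_eq_zero.1 h2).resolve_left ?_
      rw [hre v] at hv
      have h3 : 1 < e v := by
        have := hepos v
        omega
      have h4 : finrank K L / e v < finrank K L := Nat.div_lt_self finrank_pos h3
      omega
    · intro h v hvB
      by_cases hvT : v ∈ T
      · rw [if_pos hvT, mul_zero]
      · rw [if_neg hvT, h v hvT, mul_zero]
        rw [hBd, Set.Finite.mem_toFinset] at hvB
        exact hvB

end Pool.Agent.V1143.KC.KA
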