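import Pool.Agent.V1143.KC.LT
import Pool.Agent.V1143.KC.Gen

/-!
# The leading coefficients modulo a prime of congruent Euler products over function fields
-/

set_option autoImplicit false
set_option linter.all false
set_option maxHeartbeats 4000000

open Polynomial FF Module Pool.Agent.W343.BSD

namespace Pool.Agent.V1143.KC.Ld

open Pool.Agent.V1143.KC.LT Pool.Agent.V1194.LT

theorem ld_congr {k K : Type} [Field k] [Finite k] [Field K] [Algebra k K] [FF.IsFF k K] {l : ℕ}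
    [Fact l.Prime] (hlk : (l : k) ≠ 0) (b : ℕ) {P P' : Place k K → ℤ[X]}
    (hP : ∀ v, (P v).coeff 0 = 1) (hP' : ∀ v, (P' v).coeff 0 = 1) (B : Finset (Place k K))
    (hB : ∀ v, v ∉ B → (P v).map (Int.castRingHom (ZMod l)) =
      (P' v).map (Int.castRingHom (ZMod l))) {Λ Λ' : PowerSeries ℤ}
    (hΛ : Pool.Agent.V1143.KC.LT.IsProduct k P Λ) (hΛ' : Pool.Agent.V1143.KC.LT.IsProduct k P' Λ')
    {U V U' V' : ℤ[X]} (hV : V.coeff 0 = 1) (hV' : V'.coeff 0 = 1)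
    (hU : Λ * (V : PowerSeries ℤ) = U) (hU' : Λ' * (V' : PowerSeries ℤ) = U') :
    lead l (Nat.card k) b V * lead l (Nat.card k) b U' *
        ∏ v ∈ B, lead l (Nat.card k) b (expand ℤ (S.deg v) (P' v)) =
      lead l (Nat.card k) b U * lead l (Nat.card k) b V' *
        ∏ v ∈ B, lead l (Nat.card k) b (expand ℤ (S.deg v) (P v)) := by
  classical
  have hid := Pool.Agent.V1143.KC.Gen.gen_identity hP hP' B hB hΛ hΛ' hU hU'
  have hU0 := Pool.Agent.V1143.KC.Gen.coeff_zero_of hP hΛ hV hU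
  have hU0' := Pool.Agent.V1143.KC.Gen.coeff_zero_of hP' hΛ' hV' hU'
  have hqk : ((Nat.card k : ℕ) : ZMod l) ≠ 0 := card_ne_zero_mod (k := k) hlk
  have hx0 : (((Nat.card k : ℕ) : ZMod l) ^ b)⁻¹ ≠ 0 := inv_ne_zero (pow_ne_zero _ hqk)
  have n1 : ∀ {A : ℤ[X]}, A.coeff 0 = 1 → A.map (Int.castRingHom (ZMod l)) ≠ 0 :=
    fun h => Pool.Agent.Y701.PE.map_ne_of_coeff h
  have n2 : ∀ (A : ℤ[X]) (v : Place k K), A.coeff 0 = 1 →
      (expand ℤ v.deg A).map (Int.castRingHom (ZMod l)) ≠ 0 := by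
    intro A v hA
    apply n1
    have hdK : 0 < v.deg := Pool.Agent.H525R3.FFp.deg_pos v
    rw [Polynomial.coeff_expand hdK, if_pos (dvd_zero _), Nat.zero_div, hA]
  have h := congrArg (ld (((Nat.card k : ℕ) : ZMod l) ^ b)⁻¹) hid
  rw [ld_mul hx0 (mul_ne_zero (n1 hV) (n1 hU0')) (Finset.prod_ne_zero_iff.2 fun v _ => n2 _ v (hP' v)),
    ld_mul hx0 (mul_ne_zero (n1 hU0) (n1 hV')) (Finset.prod_ne_zero_iff.2 fun v _ => n2 _ v (hP v)),
    ld_mul hx0 (n1 hV) (n1 hU0'), ld_mul hx0 (n1 hU0) (n1 hV'),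
    ld_prod hx0 _ (fun v _ => n2 _ v (hP' v)), ld_prod hx0 _ (fun v _ => n2 _ v (hP v))] at h
  simp only [S.deg_eq]
  exact h

theorem combine {F J : Type} [Field F] [DecidableEq J] {r w u v p rt wt ut vt pt : F} (x xt : J → F)
    (T B : Finset J) (hTB : T ⊆ B) (hv : v ≠ 0) (hvt : vt ≠ 0)
    (hA : r * v * p = w * u * ∏ i ∈ T, x i) (hAt : rt * vt * pt = wt * ut * ∏ i ∈ T, xt i)
    (hC : v * ut * ∏ i ∈ B, xt i = u * vt * ∏ i ∈ B, x i) :
    r * wt * p * ∏ i ∈ B \ T, x i = rt * w * pt * ∏ i ∈ B \ T, xt i := by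
  have h1 : ∀ y : J → F, ∏ i ∈ B, y i = (∏ i ∈ B \ T, y i) * ∏ i ∈ T, y i := fun y =>
    (Finset.prod_sdiff hTB).symm
  rw [h1 x, h1 xt] at hC
  have h2 : v * vt ≠ 0 := mul_ne_zero hv hvt
  apply mul_left_cancel₀ h2
  linear_combination (vt * wt * ∏ i ∈ B \ T, x i) * hA - (v * w * ∏ i ∈ B \ T, xt i) * hAt -
    (w * wt) * hC

end Pool.Agent.V1143.KC.Ld
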